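import Mathlib
import Pool.Agent.Q273.AD.AbcQ4

/-!
# The metric theory of the abc conjecture

Every rational number `r = p / q ≠ 0, 1` gives the abc triple formed by `|p|`, `q` and `|p - q|`, with
largest member `c`; every abc triple is of this form. An integral adelic point `u = (ξ, η)` consists of a
real number `ξ` and of a `p`-adic integer `η_p` for every prime `p`. For a finite set `V` of primes let
`m_V(r) = log max (1, 1 / |ξ - r|) + ∑_(p ∈ V) log max (1, 1 / |η_p - r|_p)` and let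
`ρ(r) = log R(abc) / log c`, the reciprocal of the quality of the triple.

The theorem describes, for almost every `u`, how the proximities of `r` to the components of `u` and the
radicals of the three members of the triple are related, for ALL triples; and it computes Hausdorff
dimensions of sets of real numbers with many approximations by triples with small radicals.
-/

set_option autoImplicit false

open MeasureTheory

namespace Pool.Agent.Results.MP_7aad9f_nt.MetricLaw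

/-- the radical `R(m)`: the product of the distinct primes dividing `m` -/
def R (m : ℕ) : ℕ := ∏ p ∈ m.primeFactors, p

/-- the three members `|p|`, `|p - q|`, `q` of the triple of `r = p / q` -/
def member (r : ℚ) : Fin 3 → ℕ := ![r.num.natAbs, (r.num - r.den).natAbs, r.den]

/-- the largest member `c` of the triple of `r = p / q`, formed by `|p|`, `q` and `|p - q|` -/
def c (r : ℚ) : ℕ := max (max r.num.natAbs r.den) (r.num - r.den).natAbs

/-- the product `abc` of the three members of the triple of `r = p / q` -/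
def abc (r : ℚ) : ℕ := r.num.natAbs * r.den * (r.num - r.den).natAbs

/-- the exponent, a continuous increasing piecewise linear function -/
noncomputable def F (lam : ℝ) : ℝ :=
  if lam ≤ 2 / 3 then 4 * lam / 7
  else if lam ≤ 1 then (13 * lam + 2) / 28
  else if lam ≤ 3 / 2 then 5 * (10 * lam - 1) / 84
  else if lam ≤ 16 / 9 then (9 * lam - 1) / 15
  else if lam ≤ 2 then 1
  else lam - 1

/-- the product of the rings of `p`-adic integers over all primes `p`, with the product topology -/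
abbrev ZHat : Type := (p : Nat.Primes) → @PadicInt p.1 ⟨p.2⟩

/-- the proximity function at the infinite place: `log max (1, 1 / |ξ - r|)` -/
noncomputable def mInf (u : ℝ × ZHat) (r : ℚ) : ℝ := Real.log (max 1 |u.1 - (r : ℝ)|⁻¹)

/-- the proximity function at the prime `p`: `log max (1, 1 / |η_p - r|_p)` -/
noncomputable def mP (u : ℝ × ZHat) (p : Nat.Primes) (r : ℚ) : ℝ :=
  haveI : Fact p.1.Prime := ⟨p.2⟩
  Real.log (max 1 ‖((u.2 p : ℤ_[p.1]) : ℚ_[p.1]) - (r : ℚ_[p.1])‖⁻¹)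

/-- the proximity function at the infinite place and at the primes in `V` -/
noncomputable def m (V : Finset Nat.Primes) (u : ℝ × ZHat) (r : ℚ) : ℝ :=
  mInf u r + ∑ p ∈ V, mP u p r

/-- the reciprocal of the quality: `log R(abc) / log c` -/
noncomputable def ρ (r : ℚ) : ℝ := Real.log (R (abc r)) / Real.log (c r)

/-- `(τ, σ, θ)` is a limit point, for `c → ∞`, of the proximities and of the logarithms of the radicals
of the three members, divided by `log c` -/
def IsLimit (V : Finset Nat.Primes) (u : ℝ × ZHat) (τ : ℝ) (σ : Nat.Primes → ℝ)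
    (θ : Fin 3 → ℝ) : Prop :=
  ∀ ε : ℝ, 0 < ε → ∀ B : ℝ, ∃ r : ℚ, r ≠ 0 ∧ r ≠ 1 ∧ B ≤ Real.log (c r) ∧
    |mInf u r / Real.log (c r) - τ| ≤ ε ∧
    (∀ p ∈ V, |mP u p r / Real.log (c r) - σ p| ≤ ε) ∧
    ∀ i, |Real.log (R (member r i)) / Real.log (c r) - θ i| ≤ ε

/-- the real numbers with approximations `|ξ - r| ≤ c ^ (-τ + o(1))` by triples with `c → ∞`, for which
the radicals of the members are at most `c ^ (θ_i + o(1))` -/
def Approximable (τ : ℝ) (θ : Fin 3 → ℝ) : Set ℝ :=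
  {ξ | ∀ ε : ℝ, 0 < ε → ∀ B : ℝ, ∃ r : ℚ, r ≠ 0 ∧ r ≠ 1 ∧ B ≤ Real.log (c r) ∧
    |ξ - (r : ℝ)| ≤ (c r : ℝ) ^ (-(τ - ε)) ∧ ∀ i, (R (member r i) : ℝ) ≤ (c r : ℝ) ^ (θ i + ε)}

/-- the real numbers with approximations `|ξ - r| ≤ A c ^ (-τ)` by triples with `c → ∞` and
`R(abc) ≤ A c ^ lam`, for some `A` -/
def SmallRadical (lam τ : ℝ) : Set ℝ :=
  {ξ | ∃ A : ℝ, ∀ B : ℝ, ∃ r : ℚ, r ≠ 0 ∧ r ≠ 1 ∧ B ≤ Real.log (c r) ∧
    |ξ - (r : ℝ)| ≤ A * (c r : ℝ) ^ (-τ) ∧ (R (abc r) : ℝ) ≤ A * (c r : ℝ) ^ lam}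

private lemma ratio_iff {A t L ε : ℝ} (hL : 0 < L) :
    |A - t * L| ≤ ε * L ↔ |A / L - t| ≤ ε := by
  rw [div_sub' hL.ne', abs_div, abs_of_pos hL, div_le_iff₀ hL, mul_comm L]

private lemma isLimit_iff (V : Finset Nat.Primes) (u : ℝ × ZHat) (τ : ℝ) (σ : Nat.Primes → ℝ)
    (θ : Fin 3 → ℝ) : IsLimit V u τ σ θ ↔
      Q273.AD.LimQ V (fun y : ℚ => Real.log (max 1 |u.1 - (y : ℝ)|⁻¹))
        (fun p y => Q273.AD.mp u.2 p y) τ σ θ := by
  constructor
  · intro h ε hε B
    obtain ⟨r, r0, r1, hB, h1, h2, h3⟩ := h ε hε (max B 1)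
    have hL : 0 < Real.log (c r) := lt_of_lt_of_le one_pos ((le_max_right _ _).trans hB)
    exact ⟨r, r0, r1, (le_max_left _ _).trans hB, (ratio_iff hL).2 h1,
      fun p hp => (ratio_iff hL).2 (h2 p hp), fun i => (ratio_iff hL).2 (h3 i)⟩
  · intro h ε hε B
    obtain ⟨r, r0, r1, hB, h1, h2, h3⟩ := h ε hε (max B 1)
    have hL : 0 < Real.log (c r) := lt_of_lt_of_le one_pos ((le_max_right _ _).trans hB)
    exact ⟨r, r0, r1, (le_max_left _ _).trans hB, (ratio_iff hL).1 h1,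
      fun p hp => (ratio_iff hL).1 (h2 p hp), fun i => (ratio_iff hL).1 (h3 i)⟩

private lemma one_le_c (r : ℚ) : (1 : ℝ) ≤ c r := Q273.AD.one_le_cc r

private lemma approximable_eq (τ : ℝ) (θ : Fin 3 → ℝ) :
    Approximable τ θ = Q273.AD.AppR τ θ := by
  have key : ∀ (ξ : ℝ) (r : ℚ) (ε : ℝ),
      (|ξ - (r : ℝ)| ≤ (c r : ℝ) ^ (-(τ - ε)) ∧
        ∀ i, (R (member r i) : ℝ) ≤ (c r : ℝ) ^ (θ i + ε)) ↔
      (|ξ - (r : ℝ)| ≤ Real.exp (-((τ - ε) * Real.log (Q273.AD.cc r))) ∧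
        ∀ i, Real.log (Q273.AD.Rd (Q273.AD.mem3 r i)) ≤ (θ i + ε) *
          Real.log (Q273.AD.cc r)) := by
    intro ξ r ε
    have hc : (0 : ℝ) < c r := lt_of_lt_of_le one_pos (one_le_c r)
    refine and_congr ?_ (forall_congr' fun i => ?_)
    · rw [Real.rpow_def_of_pos hc]
      have e1 : Real.log (c r) * -(τ - ε) = -((τ - ε) * Real.log (Q273.AD.cc r)) := by
        show Real.log (Q273.AD.cc r) * -(τ - ε) = _
        ring
      rw [e1]
    · have hR : (0 : ℝ) < R (member r i) := by exact_mod_cast Q273.AD.Rd_pos _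
      rw [← Real.log_le_log_iff hR (Real.rpow_pos_of_pos hc _), Real.log_rpow hc]
      rfl
  ext ξ
  constructor
  · intro h ε hε B
    obtain ⟨r, r0, r1, hB, h1⟩ := h ε hε B
    exact ⟨r, r0, r1, hB, (key ξ r ε).1 h1⟩
  · intro h ε hε B
    obtain ⟨r, r0, r1, hB, h1⟩ := h ε hε B
    exact ⟨r, r0, r1, hB, (key ξ r ε).2 h1⟩

/-- **The metric theory of the abc conjecture.** Let `μ` be a finite translation invariant Borel measure
on the compact group `ZHat` (a multiple of Haar measure). For almost every `u = (ξ, η)` with respect to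
the product of Lebesgue measure and `μ`, for all finite sets `V` of primes:

1. for every `ε > 0` there is `C` such that ALL triples satisfy `m_V ≤ (F(ρ) + ε) log c + C`;
2. for every `ε > 0` there is `C` such that `log c + m_V ≤ log R(abc) + ε log c + C` for all triples
   with `m_V ≥ (1 + ε) log c` or `R(abc) ≥ c ^ 2`;
3. for `∑ (1 - θ_i) ≤ 1` or `τ + ∑ σ_p > 1`, the vector `(τ, σ, θ)` is a limit point of the proximities
   and of the logarithms of the radicals of the members, divided by `log c`, if and only if `τ ≥ 0`,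
   `σ_p ≥ 0`, `0 ≤ θ_i ≤ 1` and `τ + ∑ σ_p + ∑ (1 - θ_i) ≤ 2`.

4. If `τ > 0`, `0 ≤ θ_i ≤ 1` and `∑ (1 - θ_i) ≤ 1`, then the set of the real numbers with approximations
   of order `τ` by triples whose members have radicals at most `c ^ (θ_i + o(1))` has Hausdorff
   dimension `min (1, (2 - ∑ (1 - θ_i)) / τ)`.
5. For `lam, τ > 0` the set of the real numbers with approximations of order `τ` by triples with
   `R(abc) ≤ A c ^ lam` has Hausdorff dimension at most `F(lam) / τ`. -/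
theorem result [MeasurableSpace ZHat] [BorelSpace ZHat] (μ : Measure ZHat) [IsFiniteMeasure μ]
    [μ.IsAddLeftInvariant] :
    (∀ᵐ u : ℝ × ZHat ∂(volume.prod μ), ∀ V : Finset Nat.Primes,
      (∀ ε : ℝ, 0 < ε → ∃ C : ℝ, ∀ r : ℚ, r ≠ 0 → r ≠ 1 →
        m V u r ≤ (F (ρ r) + ε) * Real.log (c r) + C) ∧
      (∀ ε : ℝ, 0 < ε → ∃ C : ℝ, ∀ r : ℚ, r ≠ 0 → r ≠ 1 →
        ((1 + ε) * Real.log (c r) ≤ m V u r ∨ 2 * Real.log (c r) ≤ Real.log (R (abc r))) →
        Real.log (c r) + m V u r ≤ Real.log (R (abc r)) + ε * Real.log (c r) + C) ∧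
      ∀ (τ : ℝ) (σ : Nat.Primes → ℝ) (θ : Fin 3 → ℝ),
        (∑ i, (1 - θ i) ≤ 1 ∨ 1 < τ + ∑ p ∈ V, σ p) →
        (IsLimit V u τ σ θ ↔ 0 ≤ τ ∧ (∀ p ∈ V, 0 ≤ σ p) ∧ (∀ i, 0 ≤ θ i ∧ θ i ≤ 1) ∧
          τ + ∑ p ∈ V, σ p + ∑ i, (1 - θ i) ≤ 2)) ∧
    (∀ (τ : ℝ) (θ : Fin 3 → ℝ), 0 < τ → (∀ i, 0 ≤ θ i ∧ θ i ≤ 1) → ∑ i, (1 - θ i) ≤ 1 →
      dimH (Approximable τ θ) = ENNReal.ofReal (min 1 ((2 - ∑ i, (1 - θ i)) / τ))) ∧
    ∀ lam τ : ℝ, 0 < lam → 0 < τ → dimH (SmallRadical lam τ) ≤ ENNReal.ofReal (F lam / τ) := by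
  refine ⟨?_, ?_, ?_⟩
  · filter_upwards [Q273.AD.allQ2 Pool.Agent.Q225.AD.cnvq Pool.Agent.Q177.AD.trq μ] with u hu
    intro V
    obtain ⟨h1, h2, h3⟩ := hu V
    refine ⟨fun ε hε => h1 ε hε, fun ε hε => h2 ε hε, fun τ σ θ hreg => ?_⟩
    rw [isLimit_iff]
    exact h3 τ σ θ hreg
  · intro τ θ hτ hθ hκ
    set Δ : ℝ := ∑ i, (1 - θ i) with hΔ
    have hkey : ∀ τ : ℝ, 0 < τ → 2 - Δ ≤ τ →
        dimH (Approximable τ θ) = ENNReal.ofReal ((2 - Δ) / τ) := by
      intro τ hτ hτ2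
      rw [approximable_eq]
      exact Q273.AD.dim_AppR hτ (fun i => (hθ i).1) (fun i => (hθ i).2) hκ hτ2
    rcases le_or_gt (2 - Δ) τ with h | h
    · rw [min_eq_right ((div_le_one hτ).2 h)]
      exact hkey τ hτ h
    · rw [min_eq_left ((one_le_div hτ).2 h.le)]
      refine le_antisymm ?_ ?_
      · refine (dimH_mono (Set.subset_univ _)).trans (le_of_eq ?_)
        rw [Real.dimH_univ, ENNReal.ofReal_one]
      have h2 := hkey (2 - Δ) (hτ.trans h) le_rfl
      rw [div_self (hτ.trans h).ne'] at h2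
      rw [← h2, approximable_eq, approximable_eq]
      refine dimH_mono fun ξ hξ => ?_
      intro ε hε B
      obtain ⟨x, x0, x1, h4, h5, h6⟩ := hξ ε hε B
      have h7 : 0 ≤ Real.log (Q273.AD.cc x) := Q273.AD.log_cc_nonneg x
      refine ⟨x, x0, x1, h4, h5.trans (Real.exp_le_exp.2 ?_), h6⟩
      have h8 : (τ - ε) * Real.log (Q273.AD.cc x) ≤ (2 - Δ - ε) * Real.log (Q273.AD.cc x) :=
        mul_le_mul_of_nonneg_right (by linarith) h7
      linarith
  · intro lam τ h0 hτ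
    exact Q273.AD.dim_SmR h0 hτ

end Pool.Agent.Results.MP_7aad9f_nt.MetricLaw
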