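import Mathlib
import Pool.Agent.Q265.LC.L

/-!
# Localisation of the abc conjecture at finitely many places, on the values of a Belyi map

Let `S` be a finite set of primes. The abc conjecture for the triples `a + b = c` which are compactly
bounded (away from the cusps) at a set `E` of places of `S ∪ {∞}` is equivalent to its restriction
to the triples for which `a / c` is a value of a given Belyi map `f` and lies in one arbitrarily
small polydisc: close to any given point at the places in `E`, and close to a cusp at the other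
places. For `E = ∅` this is the full abc conjecture.
-/

set_option autoImplicit false

open Polynomial

namespace Pool.Agent.Results.MP_7aad9f_nt.AdelicLocalisation

/-- the radical `R(m)`: the product of the distinct primes dividing `m` -/
def R (m : ℕ) : ℕ := ∏ p ∈ m.primeFactors, p

/-- the abc conjecture -/
def ABC : Prop := ∀ ε : ℝ, 0 < ε → ∃ κ : ℝ, ∀ a b c : ℕ, 0 < a → 0 < b → Nat.Coprime a b →
  a + b = c → (c : ℝ) ≤ κ * (R (a * b * c) : ℝ) ^ (1 + ε)

/-- the abc inequality (with every `ε > 0`) for the coprime nonzero integers `a + b = c` with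
`a / c ∈ T` -/
def ABCOn (T : Set ℚ) : Prop := ∀ ε : ℝ, 0 < ε → ∃ κ : ℝ, ∀ a b c : ℤ, a ≠ 0 → b ≠ 0 → c ≠ 0 →
  IsCoprime a b → a + b = c → (a : ℚ) / c ∈ T →
    ((max |a| (max |b| |c|) : ℤ) : ℝ) ≤ κ * (R (a * b * c).natAbs : ℝ) ^ (1 + ε)

/-- The rational function `f = F / G` over `ℚ` has degree `d`, it maps `0`, `1` and `∞` to elements
of `{0, 1, ∞}`, and there are at most `d + 1` complex numbers which it maps to `0`, `1` or `∞`
(with `∞` at most `d + 2` points). By the formula of Riemann and Hurwitz the last condition means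
that `f` is unramified outside the points over `0, 1, ∞`. -/
structure IsBelyi (F G : ℚ[X]) (d : ℕ) : Prop where
  pos : 1 ≤ d
  coprime : IsCoprime F G
  degree : max F.natDegree G.natDegree = d
  zero : (F * G * (F - G)).eval 0 = 0
  one : (F * G * (F - G)).eval 1 = 0
  infinity : F.natDegree < d ∨ G.natDegree < d ∨ (F - G).natDegree < d
  unramified : ((F * G * (F - G)).rootSet ℂ).ncard ≤ d + 1

/-- the height `max(|a|, |c|)` of `a / c` -/
noncomputable def height (s : ℚ) : ℝ := max |(s.num : ℝ)| (s.den : ℝ)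

/-- the set `f(ℚ)` -/
def Values (F G : ℚ[X]) : Set ℚ := {s | ∃ t : ℚ, G.eval t ≠ 0 ∧ s = F.eval t / G.eval t}

variable {ι : Type} [Fintype ι] (P : ι → ℕ) [∀ i, Fact (P i).Prime]

/-- The abc inequality for the triples which are compactly bounded at the places in `E`; the places
are the real one (`none`) and the primes `P i` (`some i`). -/
def BoundedABC (E : Set (Option ι)) : Prop :=
  ∀ (K : Set ℝ) (J : ∀ i, Set ℚ_[P i]), IsCompact K → (0 : ℝ) ∉ K → (1 : ℝ) ∉ K →
    (∀ i, IsCompact (J i) ∧ (0 : ℚ_[P i]) ∉ J i ∧ (1 : ℚ_[P i]) ∉ J i) →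
    ABCOn {t : ℚ | (none ∈ E → (t : ℝ) ∈ K) ∧ ∀ i, some i ∈ E → (t : ℚ_[P i]) ∈ J i}

/-- the elements of `f(ℚ)` which are closer than `δ` to `f(x)` at the real place and to `f(y i)` at
the prime `P i`, for all `i` -/
def Near (F G : ℚ[X]) (x : ℝ) (y : ∀ i, ℚ_[P i]) (δ : ℝ) : Set ℚ :=
  {s | s ∈ Values F G ∧ |(s : ℝ) - aeval x F / aeval x G| < δ ∧
    ∀ i, ‖(s : ℚ_[P i]) - aeval (y i) F / aeval (y i) G‖ < δ}

/-- The coordinates of the point `(x, y)` at the places outside `E` are `0`; at the places in `E` the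
value of `f` is different from `0, 1, ∞`. -/
structure IsPoint (E : Set (Option ι)) (F G : ℚ[X]) (x : ℝ) (y : ∀ i, ℚ_[P i]) : Prop where
  real_in : none ∈ E → aeval x G ≠ 0 ∧ aeval x F ≠ 0 ∧ aeval x F ≠ aeval x G
  real_out : none ∉ E → x = 0
  prime_in : ∀ i, some i ∈ E →
    aeval (y i) G ≠ 0 ∧ aeval (y i) F ≠ 0 ∧ aeval (y i) F ≠ aeval (y i) G
  prime_out : ∀ i, some i ∉ E → y i = 0

/-- Let `f = F / G` be as in `IsBelyi`, with `f(0) = 0`, and let the primes `P i` be distinct.
(1) Let `E` be any set of places and `(x, y)` a point as in `IsPoint`. For every `δ > 0` the abc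
inequality for the elements of `f(ℚ)` close to `f(x, y)` implies the abc inequality for all triples
which are compactly bounded at the places in `E`; for small `δ` they are equivalent.
(2) For every `δ > 0` the abc conjecture is equivalent to the abc inequality for the triples with
`a / c ∈ f(ℚ)` closer than `δ` to `0` at the real place and at all primes `P i`.
(3) There are at most `C X ^ (2 / d)` elements of `f(ℚ)` of height at most `X`.
(4) For the triples in (2) the inequality fails with `ε = 0`, even with an additional factor. -/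
theorem result (hP : Function.Injective P) {F G : ℚ[X]} {d : ℕ} (hf : IsBelyi F G d)
    (h0 : F.eval 0 = 0) :
    (∀ (E : Set (Option ι)) (x : ℝ) (y : ∀ i, ℚ_[P i]), IsPoint P E F G x y →
      (∀ δ : ℝ, 0 < δ → ABCOn (Near P F G x y δ) → BoundedABC P E) ∧
      ∃ δ₀ : ℝ, 0 < δ₀ ∧ ∀ δ : ℝ, 0 < δ → δ ≤ δ₀ →
        (BoundedABC P E ↔ ABCOn (Near P F G x y δ))) ∧
    (∀ δ : ℝ, 0 < δ → (ABC ↔ ABCOn (Near P F G 0 0 δ))) ∧
    (∃ C : ℝ, ∀ X : ℝ, 1 ≤ X → {s ∈ Values F G | height s ≤ X}.Finite ∧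
      ({s ∈ Values F G | height s ≤ X}.ncard : ℝ) ≤ C * X ^ (2 / (d : ℝ))) ∧
    (∀ δ : ℝ, 0 < δ → ∃ κ : ℝ, 0 < κ ∧ ∀ C : ℝ, ∃ s ∈ Near P F G 0 0 δ, s ≠ 0 ∧ s ≠ 1 ∧
      C * R (s.num.natAbs * s.den * (s.num - s.den).natAbs) *
        Real.exp (κ * √(Real.log (height s)) / Real.log (Real.log (height s) + 2)) < height s) := by
  have hB : Q265.LC.Bel F G d :=
    Q265.LC.bel_of hf.pos hf.coprime hf.degree hf.zero hf.one hf.infinity hf.unramified
  have hI := Q265.LC.isTr_abc
  have hiff : ∀ T : Set ℚ, ABCOn T ↔ Q265.LC.Ineq T := fun T => (Q265.LC.ineq_iff T).symm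
  have hbdd : ∀ E : Set (Option ι), BoundedABC P E ↔ Q265.LC.Bdd P Q265.LC.Ineq E := by
    intro E
    constructor
    · intro h K J h1 h2 h3 h4
      exact (hiff _).1 (h K J h1 h2 h3 h4)
    · intro h K J h1 h2 h3 h4
      exact (hiff _).2 (h K J h1 h2 h3 h4)
  have hpt0 : ∀ δ : ℝ, 0 < δ → ∀ I : Set ℚ → Prop, Q265.LC.IsTr I → I (Near P F G 0 0 δ) →
      I Set.univ := by
    intro δ hδ I hI' h
    refine (Q265.LC.bdd_empty (P := P) hI').1 (Q265.LC.local_main hI' hP hB h0 (E := ∅) (x := 0)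
      (y := 0) (fun h => h.elim) (fun _ => rfl) (fun i h => h.elim) (fun i _ => rfl) hδ h)
  refine ⟨fun E x y hpt => ?_, fun δ hδ => ?_, ?_, fun δ hδ => ?_⟩
  · have key : ∀ δ : ℝ, 0 < δ → ABCOn (Near P F G x y δ) → BoundedABC P E := by
      intro δ hδ h
      exact (hbdd E).2 (Q265.LC.local_main hI hP hB h0 hpt.real_in hpt.real_out hpt.prime_in
        hpt.prime_out hδ ((hiff _).1 h))
    refine ⟨key, ?_⟩
    obtain ⟨δ₀, h1, h2⟩ := Q265.LC.local_conv hI F G hpt.real_in hpt.prime_in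
    exact ⟨δ₀, h1, fun δ hδ hδ' => ⟨fun h => (hiff _).2 (h2 δ hδ' ((hbdd E).1 h)), key δ hδ⟩⟩
  · have habc : ABC ↔ Q265.LC.Ineq Set.univ := Q265.LC.abc_iff.symm
    rw [habc, hiff]
    exact ⟨fun h => h.mono (Set.subset_univ _), fun h => hpt0 δ hδ _ hI h⟩
  · exact Q265.LC.count_values hB
  · have hn : ¬ Q265.LC.Low (Near P F G 0 0 δ) := fun h =>
      Q265.LC.not_low (hpt0 δ hδ _ Q265.LC.isTr_low h)
    unfold Q265.LC.Low at hn
    push Not at hn
    obtain ⟨κ, hκ, hC⟩ := hn
    refine ⟨κ, hκ, fun C => ?_⟩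
    obtain ⟨s, hs, s0, s1, h⟩ := hC (Real.log (max C 1))
    refine ⟨s, hs, s0, s1, ?_⟩
    have hH : 1 ≤ Q265.LC.H s := Q265.LC.one_le_H s
    have hR : (1 : ℝ) ≤ Q265.LC.Rd s := Q265.LC.one_le_Rd s
    have hm : (0 : ℝ) < max C 1 := lt_of_lt_of_le one_pos (le_max_right _ _)
    have h2 : max C 1 * Q265.LC.Rd s * Real.exp (κ * Q265.LC.psi (Real.log (Q265.LC.H s))) <
        Q265.LC.H s := by
      rw [← Real.log_lt_log_iff (by positivity) (by linarith), Real.log_mul (by positivity)
        (Real.exp_pos _).ne', Real.log_exp, Real.log_mul hm.ne' (by positivity)]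
      linarith
    have e : κ * Q265.LC.psi (Real.log (Q265.LC.H s)) =
        κ * √(Real.log (height s)) / Real.log (Real.log (height s) + 2) := by
      unfold Q265.LC.psi
      rw [mul_div_assoc]
      rfl
    rw [e] at h2
    refine lt_of_le_of_lt ?_ h2
    show C * (Q265.LC.Rd s : ℝ) * _ ≤ _
    gcongr
    exact le_max_left _ _

end Pool.Agent.Results.MP_7aad9f_nt.AdelicLocalisation
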