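import Pool.Agent.Q241.AC.C

/-! # The abc conjecture is equivalent to its restriction to almost cubes -/

set_option autoImplicit false

namespace Pool.Agent.Results.MP_7aad9f_nt.AlmostCubes

/-- the radical `R(m)`: the product of the distinct primes dividing `m` -/
def R (m : ℕ) : ℕ := ∏ p ∈ m.primeFactors, p

/-- `(a, b, c)` is a triple of coprime positive integers with `a + b = c` -/
def IsTriple (t : ℕ × ℕ × ℕ) : Prop :=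
  0 < t.1 ∧ 0 < t.2.1 ∧ Nat.Coprime t.1 t.2.1 ∧ t.1 + t.2.1 = t.2.2

/-- the abc inequality (with every `ε > 0`) for the triples in the set `T` -/
def ABCOn (T : Set (ℕ × ℕ × ℕ)) : Prop :=
  ∀ ε : ℝ, 0 < ε → ∃ κ : ℝ, ∀ t : ℕ × ℕ × ℕ, t ∈ T →
    (t.2.2 : ℝ) ≤ κ * (R (t.1 * t.2.1 * t.2.2) : ℝ) ^ (1 + ε)

/-- the abc conjecture -/
def ABC : Prop := ABCOn {t | IsTriple t}

/-- The triples all of whose members are cubes up to small factors: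
`a = u x³`, `b = v y³`, `c = w z³` with `u v w ≤ c ^ η`. -/
def Cubes (η : ℝ) : Set (ℕ × ℕ × ℕ) :=
  {t | IsTriple t ∧ ∃ u v w x y z : ℕ, t.1 = u * x ^ 3 ∧ t.2.1 = v * y ^ 3 ∧ t.2.2 = w * z ^ 3 ∧
    ((u * v * w : ℕ) : ℝ) ≤ (t.2.2 : ℝ) ^ η}

theorem result (η : ℝ) (hη : 0 < η) :
    -- (1) the abc conjecture is equivalent to its restriction to almost cubes
    (ABC ↔ ABCOn (Cubes η)) ∧
    -- (2) a set of at most `C X ^ η` almost cubes up to `X` suffices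
    (∃ T : Set (ℕ × ℕ × ℕ), T ⊆ Cubes η ∧
      (∃ C : ℝ, ∀ X : ℝ, 1 ≤ X → {t ∈ T | (t.2.2 : ℝ) ≤ X}.Finite ∧
        ({t ∈ T | (t.2.2 : ℝ) ≤ X}.ncard : ℝ) ≤ C * X ^ η) ∧
      (ABC ↔ ABCOn T)) ∧
    -- (3) almost cubes of large quality
    (∃ κ : ℝ, 0 < κ ∧ ∀ X : ℝ, ∃ t ∈ Cubes η, X ≤ t.2.2 ∧
      (R (t.1 * t.2.1 * t.2.2) : ℝ) *
        Real.exp (κ * √(Real.log t.2.2) / Real.log (Real.log t.2.2)) < t.2.2) := by
  have hmono : ∀ T T' : Set (ℕ × ℕ × ℕ), T ⊆ T' → ABCOn T' → ABCOn T := by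
    intro T T' h h' ε hε
    obtain ⟨κ, hκ⟩ := h' ε hε
    exact ⟨κ, fun t ht => hκ t (h ht)⟩
  obtain ⟨T, h1, ⟨C, h2⟩, h3⟩ := Q241.AC.reduction hη
  have hTC : T ⊆ Cubes η := by
    rintro ⟨a, b, c⟩ ht
    obtain ⟨g1, g2, g3, g4, g5⟩ := h1 a b c ht
    exact ⟨⟨g1, g2, g3, g4⟩, g5⟩
  have hT : ABCOn T → ABC := by
    intro h
    have h4 : Q241.AC.ABC := h3 fun ε hε => by
      obtain ⟨κ, hκ⟩ := h ε hε
      exact ⟨κ, fun a b c ht => hκ (a, b, c) ht⟩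
    intro ε hε
    obtain ⟨κ, hκ⟩ := h4 ε hε
    exact ⟨κ, fun t ht => hκ t.1 t.2.1 t.2.2 ht.1 ht.2.1 ht.2.2.1 ht.2.2.2⟩
  have hC : Cubes η ⊆ {t | IsTriple t} := fun t ht => ht.1
  refine ⟨⟨hmono _ _ hC, fun h => hT (hmono _ _ hTC h)⟩,
    ⟨T, hTC, ⟨C, fun X hX => ?_⟩, hmono _ _ (hTC.trans hC), hT⟩, ?_⟩
  · have hfin : {t ∈ T | (t.2.2 : ℝ) ≤ X}.Finite := by
      refine Set.Finite.subset (Finset.finite_toSet
        ((Finset.range (⌊X⌋₊ + 1)) ×ˢ (Finset.range (⌊X⌋₊ + 1)) ×ˢ (Finset.range (⌊X⌋₊ + 1)))) ?_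
      rintro ⟨a, b, c⟩ ⟨h5, h6⟩
      simp only at h6
      have h7 : c ≤ ⌊X⌋₊ := Nat.le_floor h6
      have h8 := (hC (hTC h5)).2.2.2
      simp only at h8
      simp only [Finset.coe_product, Finset.coe_range, Set.mem_prod, Set.mem_Iio]
      omega
    refine ⟨hfin, ?_⟩
    have h5 := h2 X hX hfin.toFinset (fun p hp => by
      rw [Set.Finite.mem_toFinset] at hp
      exact hp)
    rwa [Set.ncard_eq_toFinset_card _ hfin]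
  · obtain ⟨κ, hκ, h5⟩ := Q241.AC.lower hη
    refine ⟨κ, hκ, fun X => ?_⟩
    obtain ⟨a, b, c, g1, g2, g3, g4, g5, g6, g7⟩ := h5 X
    exact ⟨(a, b, c), ⟨⟨g1, g2, g3, g4⟩, g5⟩, g6, g7⟩

end Pool.Agent.Results.MP_7aad9f_nt.AlmostCubes
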