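import Pool.Agent.Q265.SP.C

/-!
# The abc conjecture and the spherical generalized Fermat equations

The abc conjecture is equivalent to its restriction to the coprime solutions of a single generalized
Fermat equation of spherical signature: `x ^ 2 + 4 y ^ n = z ^ 2` (signature `(2, n, 2)`, every `n`;
for `n = 2` these are the Pythagorean triples), `x ^ 3 + y ^ 3 = z ^ 2` (signature `(3, 3, 2)`) and
`x ^ 2 + 108 y ^ 4 = z ^ 3` (signature `(2, 4, 3)`).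
-/

set_option autoImplicit false

namespace Pool.Agent.Results.MP_7aad9f_nt.SphericalSignatures

/-- the radical `R(m)`: the product of the distinct primes dividing `m` -/
def R (m : ℕ) : ℕ := ∏ p ∈ m.primeFactors, p

/-- `(a, b, c)` is a triple of coprime positive integers with `a + b = c` -/
def IsTriple (t : ℕ × ℕ × ℕ) : Prop :=
  0 < t.1 ∧ 0 < t.2.1 ∧ Nat.Coprime t.1 t.2.1 ∧ t.1 + t.2.1 = t.2.2

/-- the abc inequality (with every `ε > 0`) for the triples in the set `T` -/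
def ABCOn (T : Set (ℕ × ℕ × ℕ)) : Prop :=
  ∀ ε : ℝ, 0 < ε → ∃ κ : ℝ, ∀ t : ℕ × ℕ × ℕ, t ∈ T →
    (t.2.2 : ℝ) ≤ κ * (R (t.1 * t.2.1 * t.2.2) : ℝ) ^ (1 + ε)

/-- the abc conjecture -/
def ABC : Prop := ABCOn {t | IsTriple t}

/-- the triples `x ^ 2 + 4 y ^ n = z ^ 2` -/
def Dihedral (n : ℕ) : Set (ℕ × ℕ × ℕ) :=
  {t | IsTriple t ∧ ∃ x y z : ℕ, t.1 = x ^ 2 ∧ t.2.1 = 4 * y ^ n ∧ t.2.2 = z ^ 2}

/-- the triples given by `x ^ 3 + y ^ 3 = z ^ 2` with integers `x > 0`, `y` (if `y` is negative, the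
triple is `z ^ 2 + |y| ^ 3 = x ^ 3`) -/
def Tetrahedral : Set (ℕ × ℕ × ℕ) :=
  {t | IsTriple t ∧ ∃ x y z : ℕ, (t.1 = x ^ 3 ∧ t.2.1 = y ^ 3 ∧ t.2.2 = z ^ 2) ∨
    (t.1 = z ^ 2 ∧ t.2.1 = y ^ 3 ∧ t.2.2 = x ^ 3)}

/-- the triples `x ^ 2 + 108 y ^ 4 = z ^ 3` -/
def Octahedral : Set (ℕ × ℕ × ℕ) :=
  {t | IsTriple t ∧ ∃ x y z : ℕ, t.1 = x ^ 2 ∧ t.2.1 = 108 * y ^ 4 ∧ t.2.2 = z ^ 3}

/-- The triples in which all three members are squares (the Pythagorean triples). -/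
def Pythagorean : Set (ℕ × ℕ × ℕ) :=
  {t | IsTriple t ∧ ∃ x y z : ℕ, t.1 = x ^ 2 ∧ t.2.1 = y ^ 2 ∧ t.2.2 = z ^ 2}

/-- **The abc conjecture is equivalent to its restriction** (1) for each `n ≥ 1`, to the triples
`x ^ 2 + 4 y ^ n = z ^ 2`; (2) to the Pythagorean triples; (3) to the triples given by
`x ^ 3 + y ^ 3 = z ^ 2`; (4) to the triples `x ^ 2 + 108 y ^ 4 = z ^ 3`. -/
theorem result :
    (∀ n : ℕ, 1 ≤ n → (ABC ↔ ABCOn (Dihedral n))) ∧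
    (ABC ↔ ABCOn Pythagorean) ∧
    (ABC ↔ ABCOn Tetrahedral) ∧
    (ABC ↔ ABCOn Octahedral) := by
  have hmono : ∀ T T' : Set (ℕ × ℕ × ℕ), T ⊆ T' → ABCOn T' → ABCOn T := by
    intro T T' h h' ε hε
    obtain ⟨κ, hκ⟩ := h' ε hε
    exact ⟨κ, fun t ht => hκ t (h ht)⟩
  refine ⟨fun n hn => ⟨hmono _ _ fun t ht => ht.1, fun h => Q265.SP.dih hn h⟩,
    ⟨hmono _ _ fun t ht => ht.1, fun h => ?_⟩,
    ⟨hmono _ _ fun t ht => ht.1, fun h => Q265.SP.tet h⟩,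
    ⟨hmono _ _ fun t ht => ht.1, fun h => Q265.SP.oct h⟩⟩
  refine Q265.SP.dih (n := 2) (by norm_num) (hmono _ _ ?_ h)
  rintro t ⟨ht, x, y, z, h1, h2, h3⟩
  exact ⟨ht, x, 2 * y, z, h1, by rw [h2]; ring, h3⟩

end Pool.Agent.Results.MP_7aad9f_nt.SphericalSignatures
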